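import Mathlib
import Pool.Agent.V11187.VisualHull

/-!
Three strictly separated bodies (bounded convex sets with non-empty interior, not closed) in
three-dimensional space whose visual hull has more than three connected components.
-/

open Set Metric Pool.Agent.V11187.VisualHull

set_option linter.unusedSimpArgs false

namespace Pool.Agent.Results.MP_1d6f1e_gt.HalfOpen

/-- Three-dimensional Euclidean space. -/
abbrev E3 : Type := EuclideanSpace ℝ (Fin 3)

/-- The point with given coordinates. -/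
noncomputable def pt (a b c : ℝ) : E3 := !₂[a, b, c]

@[simp] theorem pt0 (a b c : ℝ) : pt a b c 0 = a := by simp [pt]
@[simp] theorem pt1 (a b c : ℝ) : pt a b c 1 = b := by simp [pt]
@[simp] theorem pt2 (a b c : ℝ) : pt a b c 2 = c := by simp [pt]

theorem ext3 {x y : E3} (h0 : x 0 = y 0) (h1 : x 1 = y 1) (h2 : x 2 = y 2) : x = y := by
  ext i
  fin_cases i <;> assumption

/-- A small cube around `(0, 0, h)`. -/
def cube (h : ℝ) : Set E3 := {x | |x 0| ≤ 1 / 8 ∧ |x 1| ≤ 1 / 8 ∧ |x 2 - h| ≤ 1 / 8}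

/-- The closed bodies. -/
noncomputable def C1 : Set E3 := convexHull ℝ ({pt 1 (-3) 0, pt 1 3 0} ∪ cube 1)
noncomputable def C2 : Set E3 := convexHull ℝ ({pt (-6) 12 0, pt 9 (-3) 0} ∪ cube (-1))
noncomputable def C3 : Set E3 := convexHull ℝ ({pt (-16) (-32) 0, pt 24 8 0} ∪ cube (-3))

/-- The segments. -/
def B1 : Set E3 := {x | x 2 = 0 ∧ x 0 = 1 ∧ -2 ≤ x 1 ∧ x 1 ≤ -1}
def B2 : Set E3 := {x | x 2 = 0 ∧ x 0 + x 1 = 6 ∧ 0 ≤ x 1 ∧ -6 ≤ x 0}
def B3 : Set E3 := {x | x 2 = 0 ∧ x 0 - x 1 = 16 ∧ x 1 ≤ 0 ∧ 8 ≤ x 0}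

/-- The three bodies. -/
noncomputable def S1 : Set E3 := {x | x ∈ C1 ∧ (0 < x 2 ∨ x ∈ B1)}
noncomputable def S2 : Set E3 := {x | x ∈ C2 ∧ (x 2 < 0 ∨ x ∈ B2)}
noncomputable def S3 : Set E3 := {x | x ∈ C3 ∧ (x 2 < 0 ∨ x ∈ B3)}

/-- A linear inequality on a convex hull. -/
theorem hull_bound (s : Set E3) (a b c m : ℝ)
    (h : ∀ x ∈ s, m ≤ a * x 0 + b * x 1 + c * x 2) :
    ∀ x ∈ convexHull ℝ s, m ≤ a * x 0 + b * x 1 + c * x 2 := by
  have hconv : Convex ℝ {x : E3 | m ≤ a * x 0 + b * x 1 + c * x 2} := by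
    intro x hx y hy p q hp hq hpq
    simp only [mem_ofPred_eq, PiLp.add_apply, PiLp.smul_apply, smul_eq_mul] at *
    have h1 := mul_le_mul_of_nonneg_left hx hp
    have h2 := mul_le_mul_of_nonneg_left hy hq
    have h3 : p * m + q * m = m := by rw [← add_mul, hpq, one_mul]
    linarith
  exact fun x hx => convexHull_min h hconv hx

theorem gen_bound (u v : E3) (h a b c m : ℝ)
    (hu : m ≤ a * u 0 + b * u 1 + c * u 2) (hv : m ≤ a * v 0 + b * v 1 + c * v 2)
    (hc : m ≤ c * h - (|a| + |b| + |c|) / 8) :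
    ∀ x ∈ convexHull ℝ ({u, v} ∪ cube h), m ≤ a * x 0 + b * x 1 + c * x 2 := by
  apply hull_bound
  rintro x ((rfl | rfl) | hx)
  · exact hu
  · exact hv
  · obtain ⟨h0, h1, h2⟩ := hx
    have e0 : -(|a| / 8) ≤ a * x 0 := by
      have := neg_abs_le (a * x 0)
      rw [abs_mul] at this
      have h3 := mul_le_mul_of_nonneg_left h0 (abs_nonneg a)
      linarith
    have e1 : -(|b| / 8) ≤ b * x 1 := by
      have := neg_abs_le (b * x 1)
      rw [abs_mul] at this
      have h3 := mul_le_mul_of_nonneg_left h1 (abs_nonneg b)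
      linarith
    have e2 : -(|c| / 8) ≤ c * (x 2 - h) := by
      have := neg_abs_le (c * (x 2 - h))
      rw [abs_mul] at this
      have h3 := mul_le_mul_of_nonneg_left h2 (abs_nonneg c)
      linarith
    linarith

/-! Bounds for the first body. -/

theorem C1_z : ∀ x ∈ C1, 0 ≤ x 2 := by
  intro x hx
  have := gen_bound (pt 1 (-3) 0) (pt 1 3 0) 1 0 0 1 0 (by simp) (by simp)
    (by norm_num [abs_of_pos]) x hx
  linarith

theorem C1_x : ∀ x ∈ C1, x 0 ≤ 1 := by
  intro x hx
  have := gen_bound (pt 1 (-3) 0) (pt 1 3 0) 1 (-1) 0 0 (-1) (by simp) (by simp)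
    (by norm_num [abs_of_pos]) x hx
  linarith

theorem C1_xz : ∀ x ∈ C1, 3 / 4 ≤ x 0 + x 2 := by
  intro x hx
  have := gen_bound (pt 1 (-3) 0) (pt 1 3 0) 1 1 0 1 (3 / 4) (by simp; norm_num)
    (by simp; norm_num) (by norm_num [abs_of_pos]) x hx
  linarith

theorem C1_G3 : ∀ x ∈ C1, 0 < 14 - (x 0 - x 1) + 7 * x 2 := by
  intro x hx
  have := gen_bound (pt 1 (-3) 0) (pt 1 3 0) 1 (-1) 1 7 (-13) (by simp; norm_num)
    (by simp; norm_num) (by norm_num [abs_of_pos]) x hx
  linarith

theorem C1_G12 : ∀ x ∈ C1, 0 < 10 * x 2 - (x 0 + x 1) + 5 := by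
  intro x hx
  have := gen_bound (pt 1 (-3) 0) (pt 1 3 0) 1 (-1) (-1) 10 (-4) (by simp; norm_num)
    (by simp; norm_num) (by norm_num [abs_of_pos]) x hx
  linarith

/-! Bounds for the second body. -/

theorem C2_z : ∀ x ∈ C2, x 2 ≤ 0 := by
  intro x hx
  have := gen_bound (pt (-6) 12 0) (pt 9 (-3) 0) (-1) 0 0 (-1) 0 (by simp) (by simp)
    (by norm_num [abs_of_pos]) x hx
  linarith

theorem C2_M : ∀ x ∈ C2, 5 ≤ x 0 + x 1 - 6 * x 2 := by
  intro x hx
  have := gen_bound (pt (-6) 12 0) (pt 9 (-3) 0) (-1) 1 1 (-6) 5 (by simp; norm_num)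
    (by simp; norm_num) (by norm_num [abs_of_pos]) x hx
  linarith

theorem C2_G3 : ∀ x ∈ C2, 0 < 14 - (x 0 - x 1) + 7 * x 2 := by
  intro x hx
  have := gen_bound (pt (-6) 12 0) (pt 9 (-3) 0) (-1) (-1) 1 7 (-13) (by simp; norm_num)
    (by simp; norm_num) (by norm_num [abs_of_pos]) x hx
  linarith

theorem C2_G12 : ∀ x ∈ C2, 10 * x 2 - (x 0 + x 1) + 5 < 0 := by
  intro x hx
  have := gen_bound (pt (-6) 12 0) (pt 9 (-3) 0) (-1) 1 1 (-10) (11 / 2) (by simp; norm_num)
    (by simp; norm_num) (by norm_num [abs_of_pos]) x hx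
  linarith

/-! Bounds for the third body. -/

theorem C3_z : ∀ x ∈ C3, x 2 ≤ 0 := by
  intro x hx
  have := gen_bound (pt (-16) (-32) 0) (pt 24 8 0) (-3) 0 0 (-1) 0 (by simp) (by simp)
    (by norm_num [abs_of_pos]) x hx
  linarith

theorem C3_Q : ∀ x ∈ C3, 3 * x 1 - 5 * x 0 + 8 * x 2 < -4 := by
  intro x hx
  have := gen_bound (pt (-16) (-32) 0) (pt 24 8 0) (-3) 5 (-3) (-8) 5 (by simp; norm_num)
    (by simp; norm_num) (by norm_num [abs_of_pos]) x hx
  linarith

theorem C3_G3 : ∀ x ∈ C3, 14 - (x 0 - x 1) + 7 * x 2 < 0 := by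
  intro x hx
  have := gen_bound (pt (-16) (-32) 0) (pt 24 8 0) (-3) 1 (-1) (-7) 15 (by simp; norm_num)
    (by simp; norm_num) (by norm_num [abs_of_pos]) x hx
  linarith

/-! ### The bodies are bodies -/

theorem half_convex (C B : Set E3) (hC : Convex ℝ C) (hB : Convex ℝ B) (σ : ℝ)
    (hCz : ∀ x ∈ C, 0 ≤ σ * x 2) :
    Convex ℝ {x : E3 | x ∈ C ∧ (0 < σ * x 2 ∨ x ∈ B)} := by
  intro x hx y hy p q hp hq hpq
  refine ⟨hC hx.1 hy.1 hp hq hpq, ?_⟩
  have e : σ * (p • x + q • y) 2 = p * (σ * x 2) + q * (σ * y 2) := by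
    simp only [PiLp.add_apply, PiLp.smul_apply, smul_eq_mul]; ring
  have hx0 := hCz x hx.1
  have hy0 := hCz y hy.1
  rcases hp.eq_or_lt with hp0 | hp0
  · have hq1 : q = 1 := by linarith
    rw [← hp0, hq1, zero_smul, one_smul, zero_add]
    exact hy.2
  · rcases hq.eq_or_lt with hq0 | hq0
    · have hp1 : p = 1 := by linarith
      rw [← hq0, hp1, zero_smul, one_smul, add_zero]
      exact hx.2
    · rcases hx.2 with h | h
      · left
        rw [e]
        have := mul_pos hp0 h
        have := mul_nonneg hq hy0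
        linarith
      · rcases hy.2 with h' | h'
        · left
          rw [e]
          have := mul_pos hq0 h'
          have := mul_nonneg hp hx0
          linarith
        · right
          exact hB h h' hp hq hpq

theorem half_eq_pos (C B : Set E3) :
    {x : E3 | x ∈ C ∧ (0 < x 2 ∨ x ∈ B)} = {x : E3 | x ∈ C ∧ (0 < 1 * x 2 ∨ x ∈ B)} := by
  simp

theorem half_eq_neg (C B : Set E3) :
    {x : E3 | x ∈ C ∧ (x 2 < 0 ∨ x ∈ B)} = {x : E3 | x ∈ C ∧ (0 < (-1) * x 2 ∨ x ∈ B)} := by
  ext x
  simp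

theorem cube_bounded (h : ℝ) : Bornology.IsBounded (cube h) := by
  refine (isBounded_closedBall (x := (0 : E3)) (r := 1 + |h|)).subset ?_
  intro x hx
  obtain ⟨h0, h1, h2⟩ := hx
  rw [mem_closedBall_zero_iff]
  have h3 : |x 2| ≤ |h| + 1 / 8 := by
    have : |x 2| ≤ |x 2 - h| + |h| := by
      have := abs_add_le (x 2 - h) h
      rwa [sub_add_cancel] at this
    linarith
  have h4 : ‖x‖ ^ 2 ≤ (1 + |h|) ^ 2 := by
    rw [EuclideanSpace.norm_sq_eq, Fin.sum_univ_three]
    simp only [Real.norm_eq_abs]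
    nlinarith [abs_nonneg (x 0), abs_nonneg (x 1), abs_nonneg (x 2), abs_nonneg h]
  exact (pow_le_pow_iff_left₀ (norm_nonneg x) (by positivity) (by norm_num)).mp h4

theorem hull_bounded (u v : E3) (h : ℝ) :
    Bornology.IsBounded (convexHull ℝ ({u, v} ∪ cube h)) := by
  rw [isBounded_convexHull]
  exact ((Set.finite_insert.mpr (Set.finite_singleton v)).isBounded).union (cube_bounded h)

theorem open_cube (h : ℝ) : IsOpen {x : E3 | |x 0| < 1 / 8 ∧ |x 1| < 1 / 8 ∧ |x 2 - h| < 1 / 8} := by
  have h1 : IsOpen {x : E3 | |x 0| < 1 / 8} := isOpen_lt (by fun_prop) continuous_const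
  have h2 : IsOpen {x : E3 | |x 1| < 1 / 8} := isOpen_lt (by fun_prop) continuous_const
  have h3 : IsOpen {x : E3 | |x 2 - h| < 1 / 8} := isOpen_lt (by fun_prop) continuous_const
  exact h1.inter (h2.inter h3)

theorem interior_nonempty (S : Set E3) (h : ℝ) (hS : cube h ⊆ S) : (interior S).Nonempty := by
  refine ⟨pt 0 0 h, ?_⟩
  refine interior_maximal (t := {x : E3 | |x 0| < 1 / 8 ∧ |x 1| < 1 / 8 ∧ |x 2 - h| < 1 / 8})
    ?_ (open_cube h) ?_
  · intro x hx
    exact hS ⟨hx.1.le, hx.2.1.le, hx.2.2.le⟩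
  · simp

theorem B1_convex : Convex ℝ B1 := by
  intro x hx y hy p q hp hq hpq
  obtain ⟨h1, h2, h3, h4⟩ := hx
  obtain ⟨k1, k2, k3, k4⟩ := hy
  simp only [B1, mem_ofPred_eq, PiLp.add_apply, PiLp.smul_apply, smul_eq_mul]
  refine ⟨?_, ?_, ?_, ?_⟩
  · rw [h1, k1]; ring
  · rw [h2, k2]; linarith
  · nlinarith
  · nlinarith

theorem B2_convex : Convex ℝ B2 := by
  intro x hx y hy p q hp hq hpq
  obtain ⟨h1, h2, h3, h4⟩ := hx
  obtain ⟨k1, k2, k3, k4⟩ := hy
  simp only [B2, mem_ofPred_eq, PiLp.add_apply, PiLp.smul_apply, smul_eq_mul]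
  refine ⟨?_, ?_, ?_, ?_⟩
  · rw [h1, k1]; ring
  · have : p * x 0 + q * y 0 + (p * x 1 + q * y 1) = p * (x 0 + x 1) + q * (y 0 + y 1) := by ring
    rw [this, h2, k2]; linarith
  · positivity
  · nlinarith

theorem B3_convex : Convex ℝ B3 := by
  intro x hx y hy p q hp hq hpq
  obtain ⟨h1, h2, h3, h4⟩ := hx
  obtain ⟨k1, k2, k3, k4⟩ := hy
  simp only [B3, mem_ofPred_eq, PiLp.add_apply, PiLp.smul_apply, smul_eq_mul]
  refine ⟨?_, ?_, ?_, ?_⟩
  · rw [h1, k1]; ring
  · have : p * x 0 + q * y 0 - (p * x 1 + q * y 1) = p * (x 0 - x 1) + q * (y 0 - y 1) := by ring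
    rw [this, h2, k2]; linarith
  · nlinarith
  · nlinarith

theorem S1_body : IsBody S1 := by
  refine ⟨(hull_bounded _ _ _).subset fun x hx => hx.1, ?_, interior_nonempty S1 1 ?_⟩
  · unfold S1
    rw [half_eq_pos]
    exact half_convex _ _ (convex_convexHull ℝ _) B1_convex 1
      (fun x hx => by have := C1_z x hx; linarith)
  · intro x hx
    refine ⟨subset_convexHull ℝ _ (Or.inr hx), Or.inl ?_⟩
    have := (abs_le.mp hx.2.2).1
    linarith

theorem S2_body : IsBody S2 := by
  refine ⟨(hull_bounded _ _ _).subset fun x hx => hx.1, ?_, interior_nonempty S2 (-1) ?_⟩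
  · unfold S2
    rw [half_eq_neg]
    exact half_convex _ _ (convex_convexHull ℝ _) B2_convex (-1)
      (fun x hx => by have := C2_z x hx; linarith)
  · intro x hx
    refine ⟨subset_convexHull ℝ _ (Or.inr hx), Or.inl ?_⟩
    have := (abs_le.mp hx.2.2).2
    linarith

theorem S3_body : IsBody S3 := by
  refine ⟨(hull_bounded _ _ _).subset fun x hx => hx.1, ?_, interior_nonempty S3 (-3) ?_⟩
  · unfold S3
    rw [half_eq_neg]
    exact half_convex _ _ (convex_convexHull ℝ _) B3_convex (-1)
      (fun x hx => by have := C3_z x hx; linarith)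
  · intro x hx
    refine ⟨subset_convexHull ℝ _ (Or.inr hx), Or.inl ?_⟩
    have := (abs_le.mp hx.2.2).2
    linarith

/-! ### Linear functionals -/

/-- The functional `x ↦ a x₀ + b x₁ + c x₂`. -/
noncomputable def lin (a b c : ℝ) : E3 →L[ℝ] ℝ :=
  a • EuclideanSpace.proj 0 + b • EuclideanSpace.proj 1 + c • EuclideanSpace.proj 2

theorem lin_apply (a b c : ℝ) (x : E3) : lin a b c x = a * x 0 + b * x 1 + c * x 2 := by
  simp [lin]

/-- The family. -/
noncomputable def SS : Fin 3 → Set E3 := ![S1, S2, S3]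

theorem lin_ne (a b c : ℝ) (h : a ≠ 0) : lin a b c ≠ 0 := by
  intro h0
  have := congrArg (fun f : E3 →L[ℝ] ℝ => f (pt 1 0 0)) h0
  simp only [lin_apply, pt0, pt1, pt2] at this
  apply h
  simpa using this

theorem SS_separated : StrictlySeparated SS := by
  intro i j hij
  fin_cases i <;> fin_cases j
  · exact absurd rfl hij
  · refine ⟨lin 1 1 (-10), 5, lin_ne _ _ _ (by norm_num), ?_, ?_⟩
    · intro x hx
      rw [lin_apply]
      have := C1_G12 x hx.1
      linarith
    · intro x hx
      rw [lin_apply]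
      have := C2_G12 x hx.1
      linarith
  · refine ⟨lin 1 (-1) (-7), 14, lin_ne _ _ _ (by norm_num), ?_, ?_⟩
    · intro x hx
      rw [lin_apply]
      have := C1_G3 x hx.1
      linarith
    · intro x hx
      rw [lin_apply]
      have := C3_G3 x hx.1
      linarith
  · refine ⟨lin (-1) (-1) 10, -5, lin_ne _ _ _ (by norm_num), ?_, ?_⟩
    · intro x hx
      rw [lin_apply]
      have := C2_G12 x hx.1
      linarith
    · intro x hx
      rw [lin_apply]
      have := C1_G12 x hx.1
      linarith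
  · exact absurd rfl hij
  · refine ⟨lin 1 (-1) (-7), 14, lin_ne _ _ _ (by norm_num), ?_, ?_⟩
    · intro x hx
      rw [lin_apply]
      have := C2_G3 x hx.1
      linarith
    · intro x hx
      rw [lin_apply]
      have := C3_G3 x hx.1
      linarith
  · refine ⟨lin (-1) 1 7, -14, lin_ne _ _ _ (by norm_num), ?_, ?_⟩
    · intro x hx
      rw [lin_apply]
      have := C3_G3 x hx.1
      linarith
    · intro x hx
      rw [lin_apply]
      have := C1_G3 x hx.1
      linarith
  · refine ⟨lin (-1) 1 7, -14, lin_ne _ _ _ (by norm_num), ?_, ?_⟩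
    · intro x hx
      rw [lin_apply]
      have := C3_G3 x hx.1
      linarith
    · intro x hx
      rw [lin_apply]
      have := C2_G3 x hx.1
      linarith
  · exact absurd rfl hij

theorem mem_union (x : E3) : x ∈ (⋃ i, SS i) ↔ x ∈ S1 ∨ x ∈ S2 ∨ x ∈ S3 := by
  rw [mem_iUnion, Fin.exists_fin_succ, Fin.exists_fin_succ, Fin.exists_fin_one]
  rfl

/-- The visual hull. -/
noncomputable def P : Set E3 := visualHull (⋃ i, SS i)

theorem S_sub_P {x : E3} (hx : x ∈ (⋃ i, SS i)) : x ∈ P := by
  intro d _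
  exact ⟨0, by rw [zero_smul, add_zero]; exact hx⟩

/-- To show that a point is not in the hull. -/
theorem not_mem_P (x d : E3) (hd : d ≠ 0) (h1 : ∀ t : ℝ, x + t • d ∉ S1)
    (h2 : ∀ t : ℝ, x + t • d ∉ S2) (h3 : ∀ t : ℝ, x + t • d ∉ S3) : x ∉ P := by
  intro hx
  obtain ⟨t, ht⟩ := hx d hd
  rw [mem_union] at ht
  rcases ht with h | h | h
  · exact h1 t h
  · exact h2 t h
  · exact h3 t h

theorem pt_ne (a b c : ℝ) (h : a ≠ 0 ∨ b ≠ 0 ∨ c ≠ 0) : pt a b c ≠ 0 := by
  intro h0
  have e0 : pt a b c 0 = 0 := by rw [h0]; rfl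
  have e1 : pt a b c 1 = 0 := by rw [h0]; rfl
  have e2 : pt a b c 2 = 0 := by rw [h0]; rfl
  simp only [pt0, pt1, pt2] at e0 e1 e2
  rcases h with h | h | h
  · exact h e0
  · exact h e1
  · exact h e2

/-! ### Separating planes avoid the hull -/

theorem P_G3 (x : E3) (hx : x ∈ P) : 14 - (x 0 - x 1) + 7 * x 2 ≠ 0 := by
  intro h0
  refine not_mem_P x (pt 17 3 2) (pt_ne _ _ _ (by norm_num)) ?_ ?_ ?_ hx
  · intro t ht
    have := C1_G3 _ ht.1
    simp only [PiLp.add_apply, PiLp.smul_apply, smul_eq_mul, pt0, pt1, pt2] at this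
    linarith
  · intro t ht
    have := C2_G3 _ ht.1
    simp only [PiLp.add_apply, PiLp.smul_apply, smul_eq_mul, pt0, pt1, pt2] at this
    linarith
  · intro t ht
    have := C3_G3 _ ht.1
    simp only [PiLp.add_apply, PiLp.smul_apply, smul_eq_mul, pt0, pt1, pt2] at this
    linarith

theorem P_G12 (x : E3) (hx : x ∈ P) (h3 : 0 < 14 - (x 0 - x 1) + 7 * x 2) :
    10 * x 2 - (x 0 + x 1) + 5 ≠ 0 := by
  intro h0
  refine not_mem_P x (pt 17 3 2) (pt_ne _ _ _ (by norm_num)) ?_ ?_ ?_ hx
  · intro t ht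
    have := C1_G12 _ ht.1
    simp only [PiLp.add_apply, PiLp.smul_apply, smul_eq_mul, pt0, pt1, pt2] at this
    linarith
  · intro t ht
    have := C2_G12 _ ht.1
    simp only [PiLp.add_apply, PiLp.smul_apply, smul_eq_mul, pt0, pt1, pt2] at this
    linarith
  · intro t ht
    have := C3_G3 _ ht.1
    simp only [PiLp.add_apply, PiLp.smul_apply, smul_eq_mul, pt0, pt1, pt2] at this
    linarith

/-! ### The origin is isolated in the hull -/

theorem isolated (x : E3) (hx : x ∈ P) (h0 : |x 0| ≤ 1 / 4) (h1 : |x 1| ≤ 1 / 4)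
    (h2 : |x 2| ≤ 1 / 4) : x = 0 := by
  obtain ⟨a0, b0⟩ := abs_le.mp h0
  obtain ⟨a1, b1⟩ := abs_le.mp h1
  obtain ⟨a2, b2⟩ := abs_le.mp h2
  set X := x 0 with hX
  set Y := x 1 with hY
  set Z := x 2 with hZ
  rcases lt_trichotomy Z 0 with hz | hz | hz
  · -- below the plane
    exfalso
    refine not_mem_P x (pt (2 - X) (2 - Y) (-Z)) (pt_ne _ _ _ (Or.inl (by linarith)))
      ?_ ?_ ?_ hx
    · intro t ht
      have k1 := C1_x _ ht.1
      have k2 := C1_z _ ht.1
      simp only [PiLp.add_apply, PiLp.smul_apply, smul_eq_mul, pt0, pt1, pt2] at k1 k2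
      rw [← hX] at k1
      rw [← hZ] at k2
      have ht1 : 1 ≤ t := by nlinarith
      nlinarith
    · intro t ht
      have k1 := C2_M _ ht.1
      have k2 := C2_z _ ht.1
      simp only [PiLp.add_apply, PiLp.smul_apply, smul_eq_mul, pt0, pt1, pt2] at k1 k2
      rw [← hX, ← hY, ← hZ] at k1
      rw [← hZ] at k2
      have ht1 : t ≤ 1 := by nlinarith
      nlinarith
    · intro t ht
      have k1 := C3_Q _ ht.1
      have k2 := C3_z _ ht.1
      simp only [PiLp.add_apply, PiLp.smul_apply, smul_eq_mul, pt0, pt1, pt2] at k1 k2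
      rw [← hX, ← hY, ← hZ] at k1
      rw [← hZ] at k2
      have ht1 : t ≤ 1 := by nlinarith
      nlinarith
  · -- in the plane
    by_cases c1 : 0 < X + Y
    · exfalso
      refine not_mem_P x (pt (4 - X) (-4 - Y) 0) (pt_ne _ _ _ (Or.inl (by linarith)))
        ?_ ?_ ?_ hx
      · intro t ht
        rcases ht.2 with h | h
        · simp only [PiLp.add_apply, PiLp.smul_apply, smul_eq_mul, pt0, pt1, pt2] at h
          rw [← hZ] at h
          linarith
        · obtain ⟨e1, e2, e3, e4⟩ := h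
          simp only [PiLp.add_apply, PiLp.smul_apply, smul_eq_mul, pt0, pt1, pt2] at e1 e2 e3 e4
          rw [← hX] at e2
          rw [← hY] at e3 e4
          have : (1 - t) * (X + Y) ≤ 0 := by nlinarith
          have ht1 : 1 ≤ t := by nlinarith
          nlinarith
      · intro t ht
        rcases ht.2 with h | h
        · simp only [PiLp.add_apply, PiLp.smul_apply, smul_eq_mul, pt0, pt1, pt2] at h
          rw [← hZ] at h
          linarith
        · obtain ⟨e1, e2, e3, e4⟩ := h
          simp only [PiLp.add_apply, PiLp.smul_apply, smul_eq_mul, pt0, pt1, pt2] at e1 e2 e3 e4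
          rw [← hX] at e2 e4
          rw [← hY] at e2 e3
          have k : (1 - t) * (X + Y) = 6 := by linarith
          have k2 : 12 ≤ 1 - t := by nlinarith
          nlinarith
      · intro t ht
        rcases ht.2 with h | h
        · simp only [PiLp.add_apply, PiLp.smul_apply, smul_eq_mul, pt0, pt1, pt2] at h
          rw [← hZ] at h
          linarith
        · obtain ⟨e1, e2, e3, e4⟩ := h
          simp only [PiLp.add_apply, PiLp.smul_apply, smul_eq_mul, pt0, pt1, pt2] at e1 e2 e3 e4
          rw [← hX] at e2 e4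
          rw [← hY] at e2 e3
          have k : 0 ≤ (1 - t) * (X + Y) := by nlinarith
          have k2 : t ≤ 1 := by nlinarith
          nlinarith
    · by_cases c2 : Y < 0
      · exfalso
        refine not_mem_P x (pt (10 - X) (-Y) 0) (pt_ne _ _ _ (Or.inl (by linarith)))
          ?_ ?_ ?_ hx
        · intro t ht
          rcases ht.2 with h | h
          · simp only [PiLp.add_apply, PiLp.smul_apply, smul_eq_mul, pt0, pt1, pt2] at h
            rw [← hZ] at h
            linarith
          · obtain ⟨e1, e2, e3, e4⟩ := h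
            simp only [PiLp.add_apply, PiLp.smul_apply, smul_eq_mul, pt0, pt1, pt2] at e1 e2 e3 e4
            rw [← hX] at e2
            rw [← hY] at e3 e4
            have k : 0 ≤ t := by nlinarith
            nlinarith
        · intro t ht
          rcases ht.2 with h | h
          · simp only [PiLp.add_apply, PiLp.smul_apply, smul_eq_mul, pt0, pt1, pt2] at h
            rw [← hZ] at h
            linarith
          · obtain ⟨e1, e2, e3, e4⟩ := h
            simp only [PiLp.add_apply, PiLp.smul_apply, smul_eq_mul, pt0, pt1, pt2] at e1 e2 e3 e4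
            rw [← hX] at e2 e4
            rw [← hY] at e2 e3
            have k : 1 ≤ t := by nlinarith
            nlinarith
        · intro t ht
          rcases ht.2 with h | h
          · simp only [PiLp.add_apply, PiLp.smul_apply, smul_eq_mul, pt0, pt1, pt2] at h
            rw [← hZ] at h
            linarith
          · obtain ⟨e1, e2, e3, e4⟩ := h
            simp only [PiLp.add_apply, PiLp.smul_apply, smul_eq_mul, pt0, pt1, pt2] at e1 e2 e3 e4
            rw [← hX] at e2 e4
            rw [← hY] at e2 e3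
            have k : t ≤ 1 := by nlinarith
            nlinarith
      · by_cases c3 : 2 * X + Y < 0
        · exfalso
          refine not_mem_P x (pt (-1) 2 0) (pt_ne _ _ _ (Or.inl (by norm_num)))
            ?_ ?_ ?_ hx
          · intro t ht
            rcases ht.2 with h | h
            · simp only [PiLp.add_apply, PiLp.smul_apply, smul_eq_mul, pt0, pt1, pt2] at h
              rw [← hZ] at h
              linarith
            · obtain ⟨e1, e2, e3, e4⟩ := h
              simp only [PiLp.add_apply, PiLp.smul_apply, smul_eq_mul, pt0, pt1, pt2] at e1 e2 e3 e4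
              rw [← hX] at e2
              rw [← hY] at e3 e4
              linarith
          · intro t ht
            rcases ht.2 with h | h
            · simp only [PiLp.add_apply, PiLp.smul_apply, smul_eq_mul, pt0, pt1, pt2] at h
              rw [← hZ] at h
              linarith
            · obtain ⟨e1, e2, e3, e4⟩ := h
              simp only [PiLp.add_apply, PiLp.smul_apply, smul_eq_mul, pt0, pt1, pt2] at e1 e2 e3 e4
              rw [← hX] at e2 e4
              rw [← hY] at e2 e3
              linarith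
          · intro t ht
            rcases ht.2 with h | h
            · simp only [PiLp.add_apply, PiLp.smul_apply, smul_eq_mul, pt0, pt1, pt2] at h
              rw [← hZ] at h
              linarith
            · obtain ⟨e1, e2, e3, e4⟩ := h
              simp only [PiLp.add_apply, PiLp.smul_apply, smul_eq_mul, pt0, pt1, pt2] at e1 e2 e3 e4
              rw [← hX] at e2 e4
              rw [← hY] at e2 e3
              linarith
        · apply ext3
          · change X = 0; linarith
          · change Y = 0; linarith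
          · exact hz
  · -- above the plane
    exfalso
    refine not_mem_P x (pt 0 1 0) (pt_ne _ _ _ (by norm_num)) ?_ ?_ ?_ hx
    · intro t ht
      have k1 := C1_xz _ ht.1
      simp only [PiLp.add_apply, PiLp.smul_apply, smul_eq_mul, pt0, pt1, pt2] at k1
      rw [← hX, ← hZ] at k1
      linarith
    · intro t ht
      have k1 := C2_z _ ht.1
      simp only [PiLp.add_apply, PiLp.smul_apply, smul_eq_mul, pt0, pt1, pt2] at k1
      rw [← hZ] at k1
      linarith
    · intro t ht
      have k1 := C3_z _ ht.1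
      simp only [PiLp.add_apply, PiLp.smul_apply, smul_eq_mul, pt0, pt1, pt2] at k1
      rw [← hZ] at k1
      linarith

/-! ### The origin belongs to the hull -/

theorem comb3 {C : Set E3} (hC : Convex ℝ C) {x y z : E3} (hx : x ∈ C) (hy : y ∈ C) (hz : z ∈ C)
    {a b c : ℝ} (ha : 0 ≤ a) (hb : 0 ≤ b) (hc : 0 ≤ c) (h : 0 < a + b + c) :
    (a + b + c)⁻¹ • (a • x + b • y + c • z) ∈ C := by
  have := hC.sum_mem (t := (Finset.univ : Finset (Fin 3)))
    (w := ![(a + b + c)⁻¹ * a, (a + b + c)⁻¹ * b, (a + b + c)⁻¹ * c]) (z := ![x, y, z])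
    (by
      intro i _
      fin_cases i <;> simp <;> positivity)
    (by
      rw [Fin.sum_univ_three]
      simp only [Matrix.cons_val_zero, Matrix.cons_val_one, Matrix.cons_val]
      field_simp)
    (by
      intro i _
      fin_cases i <;> simp [hx, hy, hz])
  rw [Fin.sum_univ_three] at this
  simp only [Matrix.cons_val_zero, Matrix.cons_val_one, Matrix.cons_val] at this
  convert this using 1
  module

theorem mem_C1 {a b c : ℝ} (ha : 0 ≤ a) (hb : 0 ≤ b) (hc : 0 ≤ c) (h : 0 < a + b + c) :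
    pt ((a + b) / (a + b + c)) ((-3 * a + 3 * b) / (a + b + c)) (c / (a + b + c)) ∈ C1 := by
  have := comb3 (convex_convexHull ℝ ({pt 1 (-3) 0, pt 1 3 0} ∪ cube 1))
    (subset_convexHull ℝ _ (Or.inl (Or.inl rfl)) : pt 1 (-3) 0 ∈ _)
    (subset_convexHull ℝ _ (Or.inl (Or.inr rfl)) : pt 1 3 0 ∈ _)
    (subset_convexHull ℝ _ (Or.inr (by simp [cube])) : pt 0 0 1 ∈ _) ha hb hc h
  unfold C1
  convert this using 1
  apply ext3 <;> simp only [PiLp.add_apply, PiLp.smul_apply, smul_eq_mul, pt0, pt1, pt2] <;>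
    field_simp <;> ring

theorem mem_C2 {a b c : ℝ} (ha : 0 ≤ a) (hb : 0 ≤ b) (hc : 0 ≤ c) (h : 0 < a + b + c) :
    pt ((-6 * a + 9 * b) / (a + b + c)) ((12 * a - 3 * b) / (a + b + c))
      (-c / (a + b + c)) ∈ C2 := by
  have := comb3 (convex_convexHull ℝ ({pt (-6) 12 0, pt 9 (-3) 0} ∪ cube (-1)))
    (subset_convexHull ℝ _ (Or.inl (Or.inl rfl)) : pt (-6) 12 0 ∈ _)
    (subset_convexHull ℝ _ (Or.inl (Or.inr rfl)) : pt 9 (-3) 0 ∈ _)
    (subset_convexHull ℝ _ (Or.inr (by simp [cube])) : pt 0 0 (-1) ∈ _) ha hb hc h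
  unfold C2
  convert this using 1
  apply ext3 <;> simp only [PiLp.add_apply, PiLp.smul_apply, smul_eq_mul, pt0, pt1, pt2] <;>
    field_simp <;> ring

theorem mem_C3 {a b c : ℝ} (ha : 0 ≤ a) (hb : 0 ≤ b) (hc : 0 ≤ c) (h : 0 < a + b + c) :
    pt ((-16 * a + 24 * b) / (a + b + c)) ((-32 * a + 8 * b) / (a + b + c))
      (-3 * c / (a + b + c)) ∈ C3 := by
  have := comb3 (convex_convexHull ℝ ({pt (-16) (-32) 0, pt 24 8 0} ∪ cube (-3)))
    (subset_convexHull ℝ _ (Or.inl (Or.inl rfl)) : pt (-16) (-32) 0 ∈ _)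
    (subset_convexHull ℝ _ (Or.inl (Or.inr rfl)) : pt 24 8 0 ∈ _)
    (subset_convexHull ℝ _ (Or.inr (by simp [cube])) : pt 0 0 (-3) ∈ _) ha hb hc h
  unfold C3
  convert this using 1
  apply ext3 <;> simp only [PiLp.add_apply, PiLp.smul_apply, smul_eq_mul, pt0, pt1, pt2] <;>
    field_simp <;> ring

theorem seg1 (Y : ℝ) (h1 : -3 ≤ Y) (h2 : Y ≤ 3) : pt 1 Y 0 ∈ C1 := by
  have hs : (3 - Y) / 6 + (Y + 3) / 6 + 0 = 1 := by ring
  have := mem_C1 (a := (3 - Y) / 6) (b := (Y + 3) / 6) (c := 0) (by linarith) (by linarith)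
    le_rfl (by linarith)
  rw [hs] at this
  convert this using 2 <;> ring

theorem seg2 (X Y : ℝ) (h : X + Y = 6) (h1 : X ≤ 9) (h2 : -6 ≤ X) : pt X Y 0 ∈ C2 := by
  have hs : (9 - X) / 15 + (X + 6) / 15 + 0 = 1 := by ring
  have := mem_C2 (a := (9 - X) / 15) (b := (X + 6) / 15) (c := 0) (by linarith) (by linarith)
    le_rfl (by linarith)
  rw [hs] at this
  have hY : Y = 6 - X := by linarith
  rw [hY]
  convert this using 2 <;> ring

theorem seg3 (X Y : ℝ) (h : X - Y = 16) (h1 : X ≤ 24) (h2 : -16 ≤ X) : pt X Y 0 ∈ C3 := by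
  have hs : (24 - X) / 40 + (X + 16) / 40 + 0 = 1 := by ring
  have := mem_C3 (a := (24 - X) / 40) (b := (X + 16) / 40) (c := 0) (by linarith) (by linarith)
    le_rfl (by linarith)
  rw [hs] at this
  have hY : Y = X - 16 := by linarith
  rw [hY]
  convert this using 2 <;> ring

/-- Lines through the origin inside the plane. -/
theorem hit_plane (A B : ℝ) (hB : 0 ≤ B) (hAB : A ≠ 0 ∨ B ≠ 0) :
    ∃ s : ℝ, pt (s * A) (s * B) 0 ∈ (⋃ i, SS i) := by
  by_cases h1 : 0 ≤ 2 * A + B
  · have hpos : 0 < A + B := by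
      rcases hB.eq_or_lt with h | h
      · rcases hAB with h' | h'
        · have : 0 < A := lt_of_le_of_ne (by linarith) (Ne.symm h')
          linarith
        · exact absurd h.symm h'
      · by_cases hA : 0 ≤ A
        · linarith
        · push Not at hA; linarith
    refine ⟨6 / (A + B), ?_⟩
    rw [mem_union]
    right; left
    have e1 : 6 / (A + B) * A ≤ 6 := by
      rw [div_mul_eq_mul_div, div_le_iff₀ hpos]; nlinarith
    have e2 : -6 ≤ 6 / (A + B) * A := by
      rw [div_mul_eq_mul_div, le_div_iff₀ hpos]; nlinarith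
    have e3 : 6 / (A + B) * A + 6 / (A + B) * B = 6 := by field_simp
    refine ⟨seg2 _ _ e3 (by linarith) e2, Or.inr ?_⟩
    simp only [B2, mem_ofPred_eq, pt0, pt1, pt2]
    exact ⟨trivial, e3, by positivity, e2⟩
  · push Not at h1
    have hA : A < 0 := by linarith
    by_cases h2 : A + B ≤ 0
    · -- third body
      have hpos : 0 < B - A := by linarith
      refine ⟨-(16 / (B - A)), ?_⟩
      rw [mem_union]
      right; right
      have e0 : -(16 / (B - A)) * A = 16 * (-A) / (B - A) := by ring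
      have e0' : -(16 / (B - A)) * B = -(16 * B / (B - A)) := by ring
      have e1 : 16 * (-A) / (B - A) ≤ 16 := by
        rw [div_le_iff₀ hpos]; nlinarith
      have e2 : 8 ≤ 16 * (-A) / (B - A) := by
        rw [le_div_iff₀ hpos]; nlinarith
      have e3 : 16 * (-A) / (B - A) - -(16 * B / (B - A)) = 16 := by field_simp; ring
      have e4 : -(16 * B / (B - A)) ≤ 0 := by
        have : 0 ≤ 16 * B / (B - A) := by positivity
        linarith
      rw [e0, e0']
      refine ⟨seg3 _ _ e3 (by linarith) (by linarith), Or.inr ?_⟩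
      simp only [B3, mem_ofPred_eq, pt0, pt1, pt2]
      exact ⟨trivial, e3, e4, e2⟩
    · -- first body
      push Not at h2
      refine ⟨A⁻¹, ?_⟩
      rw [mem_union]
      left
      have e0 : A⁻¹ * A = 1 := inv_mul_cancel₀ hA.ne
      have e1 : -2 ≤ A⁻¹ * B := by
        rw [← div_eq_inv_mul, le_div_iff_of_neg hA]; linarith
      have e2 : A⁻¹ * B ≤ -1 := by
        rw [← div_eq_inv_mul, div_le_iff_of_neg hA]; linarith
      rw [e0]
      refine ⟨seg1 _ (by linarith) (by linarith), Or.inr ?_⟩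
      simp only [B1, mem_ofPred_eq, pt0, pt1, pt2]
      exact ⟨trivial, trivial, e1, e2⟩

/-- Lines through the origin transversal to the plane. -/
theorem hit_transversal (a b : ℝ) : ∃ s : ℝ, pt (s * a) (s * b) s ∈ (⋃ i, SS i) := by
  by_cases h1 : |b| ≤ 3 * a
  · obtain ⟨k1, k2⟩ := abs_le.mp h1
    have ha : 0 ≤ a := by
      have := abs_nonneg b
      linarith
    have hpos : 0 < 1 + a := by linarith
    refine ⟨1 / (1 + a), ?_⟩
    rw [mem_union]
    left
    have hs : (3 * a - b) / 6 + (3 * a + b) / 6 + 1 = 1 + a := by ring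
    have := mem_C1 (a := (3 * a - b) / 6) (b := (3 * a + b) / 6) (c := 1) (by linarith)
      (by linarith) (by norm_num) (by linarith)
    rw [hs] at this
    refine ⟨?_, Or.inl ?_⟩
    · convert this using 2
      · field_simp; ring
      · field_simp; ring
    · rw [pt2]; positivity
  · by_cases h2 : 0 ≤ -a - 3 * b ∧ 0 ≤ -2 * a - b
    · obtain ⟨k1, k2⟩ := h2
      set W := (-a - 3 * b) / 30 + (-2 * a - b) / 15 + 1 with hW
      have hpos : 0 < W := by rw [hW]; linarith
      refine ⟨-(1 / W), ?_⟩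
      rw [mem_union]
      right; left
      have := mem_C2 (a := (-a - 3 * b) / 30) (b := (-2 * a - b) / 15) (c := 1) (by linarith)
        (by linarith) (by norm_num) (by linarith)
      rw [← hW] at this
      refine ⟨?_, Or.inl ?_⟩
      · convert this using 2
        · field_simp; ring
        · field_simp; ring
        · ring
      · rw [pt2]
        have : 0 < 1 / W := by positivity
        linarith
    · have h3 : 0 ≤ -a + 3 * b ∧ 0 ≤ -2 * a + b := by
        rcases le_or_gt 0 b with hb | hb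
        · rw [abs_of_nonneg hb] at h1
          push Not at h1
          by_cases h4 : b < 2 * a
          · exfalso; linarith
          · push Not at h4
            constructor
            · by_cases ha : a ≤ 0
              · linarith
              · push Not at ha; linarith
            · linarith
        · exfalso
          rw [abs_of_neg hb] at h1
          push Not at h1
          apply h2
          by_cases ha : a ≤ 0
          · constructor <;> linarith
          · push Not at ha
            by_cases h4 : -b < 2 * a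
            · exfalso; linarith
            · push Not at h4
              constructor <;> linarith
      obtain ⟨k1, k2⟩ := h3
      set W := (-a + 3 * b) / 80 + (-2 * a + b) / 40 + 1 / 3 with hW
      have hpos : 0 < W := by rw [hW]; linarith
      refine ⟨-(1 / W), ?_⟩
      rw [mem_union]
      right; right
      have := mem_C3 (a := (-a + 3 * b) / 80) (b := (-2 * a + b) / 40) (c := 1 / 3) (by linarith)
        (by linarith) (by norm_num) (by linarith)
      rw [← hW] at this
      refine ⟨?_, Or.inl ?_⟩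
      · convert this using 2
        · field_simp; ring
        · field_simp; ring
        · ring
      · rw [pt2]
        have : 0 < 1 / W := by positivity
        linarith

theorem zero_mem_P : (0 : E3) ∈ P := by
  intro d hd
  by_cases hz : d 2 = 0
  · have hAB : d 0 ≠ 0 ∨ d 1 ≠ 0 := by
      by_contra hcon
      push Not at hcon
      exact hd (ext3 hcon.1 hcon.2 hz)
    rcases le_or_gt 0 (d 1) with hb | hb
    · obtain ⟨s, hs⟩ := hit_plane (d 0) (d 1) hb hAB
      refine ⟨s, ?_⟩
      have e : (0 : E3) + s • d = pt (s * d 0) (s * d 1) 0 := by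
        apply ext3 <;> simp [hz]
      rw [e]; exact hs
    · obtain ⟨s, hs⟩ := hit_plane (-d 0) (-d 1) (by linarith) (Or.inr (by linarith))
      refine ⟨-s, ?_⟩
      have e : (0 : E3) + (-s) • d = pt (s * -d 0) (s * -d 1) 0 := by
        apply ext3 <;> simp [hz]
      rw [e]; exact hs
  · obtain ⟨s, hs⟩ := hit_transversal (d 0 / d 2) (d 1 / d 2)
    refine ⟨s / d 2, ?_⟩
    have e : (0 : E3) + (s / d 2) • d = pt (s * (d 0 / d 2)) (s * (d 1 / d 2)) s := by
      apply ext3
      · simp; ring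
      · simp; ring
      · simp; field_simp
    rw [e]; exact hs

/-! ### Counting components -/

open Classical in
/-- The colouring of the hull. -/
noncomputable def col (x : P) : Fin 4 :=
  if (x : E3) = 0 then 0
  else if 14 - ((x : E3) 0 - (x : E3) 1) + 7 * (x : E3) 2 < 0 then 3
  else if 10 * (x : E3) 2 - ((x : E3) 0 + (x : E3) 1) + 5 < 0 then 2
  else 1

theorem col_eq0 (x : P) : col x = 0 ↔ (x : E3) = 0 := by
  unfold col
  by_cases h : (x : E3) = 0
  · simp [h]
  · simp only [h, if_false, iff_false]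
    split_ifs <;> decide

theorem col_eq3 (x : P) : col x = 3 ↔
    (x : E3) ≠ 0 ∧ 14 - ((x : E3) 0 - (x : E3) 1) + 7 * (x : E3) 2 < 0 := by
  unfold col
  by_cases h : (x : E3) = 0
  · simp [h]
  · simp only [h, if_false]
    split_ifs with h1 h2
    · simp [h, h1]
    · simp only [h1, and_false, iff_false]; decide
    · simp only [h1, and_false, iff_false]; decide

theorem col_eq2 (x : P) : col x = 2 ↔
    (x : E3) ≠ 0 ∧ 0 < 14 - ((x : E3) 0 - (x : E3) 1) + 7 * (x : E3) 2 ∧
      10 * (x : E3) 2 - ((x : E3) 0 + (x : E3) 1) + 5 < 0 := by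
  have hne := P_G3 x x.2
  unfold col
  by_cases h : (x : E3) = 0
  · simp [h]
  · simp only [h, if_false]
    split_ifs with h1 h2
    · have : ¬ (0 < 14 - ((x : E3) 0 - (x : E3) 1) + 7 * (x : E3) 2) := by linarith
      simp only [this, false_and, and_false, iff_false]; decide
    · have : 0 < 14 - ((x : E3) 0 - (x : E3) 1) + 7 * (x : E3) 2 :=
        lt_of_le_of_ne (not_lt.mp h1) (Ne.symm hne)
      simp [h, this, h2]
    · simp only [h2, and_false, iff_false]; decide

theorem col_eq1 (x : P) : col x = 1 ↔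
    (x : E3) ≠ 0 ∧ 0 < 14 - ((x : E3) 0 - (x : E3) 1) + 7 * (x : E3) 2 ∧
      0 < 10 * (x : E3) 2 - ((x : E3) 0 + (x : E3) 1) + 5 := by
  have hne := P_G3 x x.2
  unfold col
  by_cases h : (x : E3) = 0
  · simp [h]
  · simp only [h, if_false]
    split_ifs with h1 h2
    · have : ¬ (0 < 14 - ((x : E3) 0 - (x : E3) 1) + 7 * (x : E3) 2) := by linarith
      simp only [this, false_and, and_false, iff_false]; decide
    · have : ¬ (0 < 10 * (x : E3) 2 - ((x : E3) 0 + (x : E3) 1) + 5) := by linarith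
      simp only [this, and_false, iff_false]; decide
    · have h3 : 0 < 14 - ((x : E3) 0 - (x : E3) 1) + 7 * (x : E3) 2 :=
        lt_of_le_of_ne (not_lt.mp h1) (Ne.symm hne)
      have h4 : 0 < 10 * (x : E3) 2 - ((x : E3) 0 + (x : E3) 1) + 5 :=
        lt_of_le_of_ne (not_lt.mp h2) (Ne.symm (P_G12 x x.2 h3))
      simp [h, h3, h4]

theorem col_continuous : Continuous col := by
  rw [continuous_discrete_rng]
  have hne : IsOpen {x : P | (x : E3) ≠ 0} := isOpen_ne_fun continuous_subtype_val continuous_const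
  intro i
  fin_cases i
  · have : col ⁻¹' {0} = {x : P | |(x : E3) 0| < 1 / 4} ∩ ({x : P | |(x : E3) 1| < 1 / 4} ∩
        {x : P | |(x : E3) 2| < 1 / 4}) := by
      ext x
      simp only [mem_preimage, mem_singleton_iff, mem_inter_iff, mem_ofPred_eq]
      rw [col_eq0]
      constructor
      · intro h; rw [h]; norm_num
      · rintro ⟨h0, h1, h2⟩
        exact isolated x x.2 h0.le h1.le h2.le
    change IsOpen (col ⁻¹' {0})
    rw [this]
    exact (isOpen_lt (by fun_prop) continuous_const).inter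
      ((isOpen_lt (by fun_prop) continuous_const).inter
        (isOpen_lt (by fun_prop) continuous_const))
  · have : col ⁻¹' {1} = {x : P | (x : E3) ≠ 0} ∩
        ({x : P | 0 < 14 - ((x : E3) 0 - (x : E3) 1) + 7 * (x : E3) 2} ∩
          {x : P | 0 < 10 * (x : E3) 2 - ((x : E3) 0 + (x : E3) 1) + 5}) := by
      ext x
      simp only [mem_preimage, mem_singleton_iff, mem_inter_iff, mem_ofPred_eq]
      rw [col_eq1]
    change IsOpen (col ⁻¹' {1})
    rw [this]
    exact hne.inter ((isOpen_lt continuous_const (by fun_prop)).inter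
      (isOpen_lt continuous_const (by fun_prop)))
  · have : col ⁻¹' {2} = {x : P | (x : E3) ≠ 0} ∩
        ({x : P | 0 < 14 - ((x : E3) 0 - (x : E3) 1) + 7 * (x : E3) 2} ∩
          {x : P | 10 * (x : E3) 2 - ((x : E3) 0 + (x : E3) 1) + 5 < 0}) := by
      ext x
      simp only [mem_preimage, mem_singleton_iff, mem_inter_iff, mem_ofPred_eq]
      rw [col_eq2]
    change IsOpen (col ⁻¹' {2})
    rw [this]
    exact hne.inter ((isOpen_lt continuous_const (by fun_prop)).inter
      (isOpen_lt (by fun_prop) continuous_const))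
  · have : col ⁻¹' {3} = {x : P | (x : E3) ≠ 0} ∩
        {x : P | 14 - ((x : E3) 0 - (x : E3) 1) + 7 * (x : E3) 2 < 0} := by
      ext x
      simp only [mem_preimage, mem_singleton_iff, mem_inter_iff, mem_ofPred_eq]
      rw [col_eq3]
    change IsOpen (col ⁻¹' {3})
    rw [this]
    exact hne.inter (isOpen_lt (by fun_prop) continuous_const)

theorem apex_mem (h : ℝ) : pt 0 0 h ∈ cube h := by simp [cube]

theorem col_surjective : Function.Surjective col := by
  have m1 : pt 0 0 1 ∈ P := S_sub_P ((mem_union _).mpr (Or.inl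
    ⟨subset_convexHull ℝ _ (Or.inr (apex_mem 1)), Or.inl (by simp)⟩))
  have m2 : pt 0 0 (-1) ∈ P := S_sub_P ((mem_union _).mpr (Or.inr (Or.inl
    ⟨subset_convexHull ℝ _ (Or.inr (apex_mem (-1))), Or.inl (by simp)⟩)))
  have m3 : pt 0 0 (-3) ∈ P := S_sub_P ((mem_union _).mpr (Or.inr (Or.inr
    ⟨subset_convexHull ℝ _ (Or.inr (apex_mem (-3))), Or.inl (by simp)⟩)))
  intro i
  fin_cases i
  · exact ⟨⟨0, zero_mem_P⟩, (col_eq0 _).mpr rfl⟩
  · refine ⟨⟨_, m1⟩, (col_eq1 _).mpr ⟨pt_ne _ _ _ (by norm_num), ?_, ?_⟩⟩ <;>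
      simp only [pt0, pt1, pt2] <;> norm_num
  · refine ⟨⟨_, m2⟩, (col_eq2 _).mpr ⟨pt_ne _ _ _ (by norm_num), ?_, ?_⟩⟩ <;>
      simp only [pt0, pt1, pt2] <;> norm_num
  · refine ⟨⟨_, m3⟩, (col_eq3 _).mpr ⟨pt_ne _ _ _ (by norm_num), ?_⟩⟩
    simp only [pt0, pt1, pt2]; norm_num

theorem many_components : 3 < numComponents P := by
  unfold numComponents
  have hsurj : Function.Surjective (col_continuous.connectedComponentsLift) := by
    intro i
    obtain ⟨x, hx⟩ := col_surjective i
    exact ⟨(x : ConnectedComponents P), by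
      rw [Continuous.connectedComponentsLift_apply_coe]; exact hx⟩
  have h4 : ENat.card (Fin 4) ≤ ENat.card (ConnectedComponents P) := by
    apply ENat.card_le_card_of_injective (Function.injective_surjInv hsurj)
  rw [ENat.card_eq_coe_fintype_card, Fintype.card_fin] at h4
  exact lt_of_lt_of_le (by norm_num) h4

/-- There are three strictly separated bodies (bounded convex sets with non-empty interior) in
three-dimensional Euclidean space whose visual hull has more than three connected
components. -/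
theorem result : ∃ S : Fin 3 → Set (EuclideanSpace ℝ (Fin 3)),
    (∀ i, IsBody (S i)) ∧ StrictlySeparated S ∧ 3 < numComponents (visualHull (⋃ i, S i)) := by
  refine ⟨SS, fun i => ?_, SS_separated, many_components⟩
  fin_cases i
  · exact S1_body
  · exact S2_body
  · exact S3_body

end Pool.Agent.Results.MP_1d6f1e_gt.HalfOpen
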