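import Mathlib
import Pool.Agent.V11187.VisualHull
import Pool.Agent.V11187.CommonRay

/-!
The visual hull of `n` strictly separated non-empty convex sets in `n`-dimensional Euclidean
space, all compact or all open, has exactly `n` connected components.
-/

open Set Metric Module Pool.Agent.V11187.VisualHull Pool.Agent.V11187.CommonRay

namespace Pool.Agent.Results.MP_1d6f1e_gt.SameType

universe u

variable {V : Type u} [NormedAddCommGroup V] [InnerProductSpace ℝ V]

/-- The cells. -/
def cell {n : ℕ} (g : Fin n → Fin n → V →L[ℝ] ℝ) (c : Fin n → Fin n → ℝ) (i : Fin n) : Set V :=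
  {x | ∀ j, j ≠ i → g i j x < c i j}

theorem sub_hull {S : Set V} : S ⊆ visualHull S := by
  intro x hx d _
  exact ⟨0, by rw [zero_smul, add_zero]; exact hx⟩

theorem main {n : ℕ} (hn : 0 < n) (S : Fin n → Set V) (hconv : ∀ i, Convex ℝ (S i))
    (hne : ∀ i, (S i).Nonempty) (g : Fin n → Fin n → V →L[ℝ] ℝ) (c : Fin n → Fin n → ℝ)
    (hanti : ∀ i j, i ≠ j → g j i = - g i j ∧ c j i = - c i j)
    (hg : ∀ i j, i ≠ j → (∀ x ∈ S i, g i j x < c i j))
    (hray : ∀ x ∈ visualHull (⋃ i, S i), x ∉ (⋃ i, S i) →
      ∃ v : V, ∀ j, ∃ t : ℝ, 0 < t ∧ x + t • v ∈ S j) :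
    numComponents (visualHull (⋃ i, S i)) = n := by
  set P := visualHull (⋃ i, S i) with hP
  have hg' : ∀ i j, i ≠ j → (∀ x ∈ S j, c i j < g i j x) := by
    intro i j hij x hx
    have h1 := hg j i hij.symm x hx
    obtain ⟨h2, h3⟩ := hanti i j hij
    rw [h2, h3] at h1
    have h4 : (-g i j) x = - g i j x := rfl
    rw [h4] at h1
    linarith
  have hdisj : ∀ i j x, x ∈ cell g c i → x ∈ cell g c j → i = j := by
    intro i j x hi hj
    by_contra hij
    have h1 := hi j (Ne.symm hij)
    have h2 := hj i hij
    obtain ⟨h3, h4⟩ := hanti i j hij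
    rw [h3, h4] at h2
    have h5 : (-g i j) x = - g i j x := rfl
    rw [h5] at h2
    linarith
  have hScell : ∀ i, S i ⊆ cell g c i := by
    intro i x hx j hj
    exact hg i j hj.symm x hx
  have hSP : ∀ i, S i ⊆ P := fun i x hx => sub_hull (mem_iUnion.mpr ⟨i, hx⟩)
  have hopen : ∀ i, IsOpen (cell g c i) := by
    intro i
    have : cell g c i = ⋂ j, {x : V | j ≠ i → g i j x < c i j} := by
      ext x; simp [cell]
    rw [this]
    refine isOpen_iInter_of_finite fun j => ?_
    by_cases hj : j = i
    · simp [hj]
    · simp only [ne_eq, hj, not_false_eq_true, true_imp_iff]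
      exact isOpen_lt (g i j).continuous continuous_const
  -- every point of the hull is joined to some body inside its cell
  have hjoin : ∀ x ∈ P, ∃ i, ∃ y ∈ S i, x ∈ cell g c i ∧ segment ℝ x y ⊆ P ∩ cell g c i := by
    intro x hx
    by_cases hxS : x ∈ ⋃ i, S i
    · obtain ⟨i, hi⟩ := mem_iUnion.mp hxS
      refine ⟨i, x, hi, hScell i hi, ?_⟩
      rw [segment_same]
      exact singleton_subset_iff.mpr ⟨hx, hScell i hi⟩
    · obtain ⟨v, hv⟩ := hray x hx hxS
      choose a ha haS using hv
      have : Nonempty (Fin n) := ⟨⟨0, hn⟩⟩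
      obtain ⟨i, hi⟩ := Finite.exists_min a
      have hcell : ∀ s : ℝ, 0 ≤ s → s ≤ a i → x + s • v ∈ cell g c i := by
        intro s hs hsa j hj
        have h1 := hg i j hj.symm _ (haS i)
        have h2 := hg' i j hj.symm _ (haS j)
        rw [map_add, map_smul, smul_eq_mul] at h1 h2 ⊢
        have h3 := hi j
        have h4 : 0 < (a j - a i) * g i j v := by nlinarith
        have h5 : 0 < g i j v := by
          by_contra hneg
          push Not at hneg
          have : (a j - a i) * g i j v ≤ 0 := mul_nonpos_of_nonneg_of_nonpos (by linarith) hneg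
          linarith
        have h6 : s * g i j v ≤ a i * g i j v := mul_le_mul_of_nonneg_right hsa h5.le
        linarith
      have hPP : ∀ s : ℝ, 0 ≤ s → s ≤ a i → x + s • v ∈ P := by
        intro s hs hsa d hd
        obtain ⟨t, ht⟩ := hx d hd
        obtain ⟨j, hj⟩ := mem_iUnion.mp ht
        have haj := ha j
        have hsaj : s / a j ≤ 1 := by
          rw [div_le_one haj]; exact hsa.trans (hi j)
        refine ⟨(1 - s / a j) * t, mem_iUnion.mpr ⟨j, ?_⟩⟩
        have := hconv j hj (haS j) (a := 1 - s / a j) (b := s / a j) (by linarith)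
          (by positivity) (by ring)
        convert this using 1
        have e : (s / a j) * a j = s := div_mul_cancel₀ _ haj.ne'
        rw [smul_add, smul_add, smul_smul, smul_smul, e, sub_smul, one_smul]
        abel
      refine ⟨i, x + a i • v, haS i, ?_, ?_⟩
      · have := hcell 0 le_rfl (ha i).le
        rwa [zero_smul, add_zero] at this
      · intro z hz
        rw [segment_eq_image'] at hz
        obtain ⟨θ, hθ, rfl⟩ := hz
        have e : x + θ • (x + a i • v - x) = x + (θ * a i) • v := by
          rw [add_sub_cancel_left, smul_smul]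
        simp only
        rw [e]
        have h1 : 0 ≤ θ * a i := mul_nonneg hθ.1 (ha i).le
        have h2 : θ * a i ≤ a i := by nlinarith [hθ.2, ha i]
        exact ⟨hPP _ h1 h2, hcell _ h1 h2⟩
  -- the cells of the hull are preconnected
  have hpre : ∀ i, IsPreconnected (P ∩ cell g c i) := by
    intro i
    have hj : ∀ x ∈ P ∩ cell g c i, ∃ y ∈ S i, segment ℝ x y ⊆ P ∩ cell g c i := by
      intro x hx
      obtain ⟨k, y, hy, hk, hseg⟩ := hjoin x hx.1
      have : k = i := hdisj k i x hk hx.2
      subst this
      exact ⟨y, hy, hseg⟩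
    refine isPreconnected_of_forall_pair ?_
    intro x hx y hy
    obtain ⟨x', hx', hxs⟩ := hj x hx
    obtain ⟨y', hy', hys⟩ := hj y hy
    refine ⟨segment ℝ x x' ∪ S i ∪ segment ℝ y y', ?_, ?_, ?_, ?_⟩
    · refine union_subset (union_subset hxs fun z hz => ⟨hSP i hz, hScell i hz⟩) hys
    · exact Or.inl (Or.inl (left_mem_segment ℝ _ _))
    · exact Or.inr (left_mem_segment ℝ _ _)
    · refine IsPreconnected.union y' (Or.inr hy') (right_mem_segment ℝ _ _) ?_
        (convex_segment y y').isPreconnected
      exact IsPreconnected.union x' (right_mem_segment ℝ _ _) hx'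
        (convex_segment x x').isPreconnected (hconv i).isPreconnected
  -- the colouring
  have hcol : ∀ x : P, ∃ i, (x : V) ∈ cell g c i := by
    intro x
    obtain ⟨i, _, _, hi, _⟩ := hjoin x x.2
    exact ⟨i, hi⟩
  choose φ hφ using hcol
  have hφi : ∀ (x : P) i, φ x = i ↔ (x : V) ∈ cell g c i := by
    intro x i
    constructor
    · intro h; rw [← h]; exact hφ x
    · intro h; exact hdisj _ _ _ (hφ x) h
  have hφc : Continuous φ := by
    rw [continuous_discrete_rng]
    intro i
    have : φ ⁻¹' {i} = (fun x : P => (x : V)) ⁻¹' cell g c i := by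
      ext x
      simp only [mem_preimage, mem_singleton_iff]
      exact hφi x i
    rw [this]
    exact (hopen i).preimage continuous_subtype_val
  have hfib : ∀ i, IsPreconnected (φ ⁻¹' {i}) := by
    intro i
    rw [← Topology.IsInducing.subtypeVal.isPreconnected_image]
    have : (Subtype.val '' (φ ⁻¹' {i}) : Set V) = P ∩ cell g c i := by
      ext x
      constructor
      · rintro ⟨y, hy, rfl⟩
        exact ⟨y.2, (hφi y i).mp hy⟩
      · rintro ⟨h1, h2⟩
        exact ⟨⟨x, h1⟩, (hφi _ i).mpr h2, rfl⟩
    rw [this]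
    exact hpre i
  have hbij : Function.Bijective (hφc.connectedComponentsLift) := by
    constructor
    · intro a b
      induction a using Quotient.inductionOn with
      | h x =>
        induction b using Quotient.inductionOn with
        | h y =>
          intro hxy
          have h1 : φ x = φ y := hxy
          have h2 : y ∈ connectedComponent x :=
            (hfib (φ x)).subset_connectedComponent (mem_preimage.mpr rfl)
              (mem_preimage.mpr h1.symm)
          exact ConnectedComponents.coe_eq_coe'.mpr (by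
            rw [← connectedComponent_eq h2]; exact mem_connectedComponent)
    · intro i
      obtain ⟨y, hy⟩ := hne i
      exact ⟨((⟨y, hSP i hy⟩ : P) : ConnectedComponents P), (hφi _ i).mpr (hScell i hy)⟩
  unfold numComponents
  rw [ENat.card_congr (Equiv.ofBijective _ hbij), ENat.card_eq_coe_fintype_card,
    Fintype.card_fin]

theorem ray_exists {m : ℕ} [FiniteDimensional ℝ V] (hV : finrank ℝ V = m + 1)
    (S : Fin (m + 1) → Set V) (hconv : ∀ i, Convex ℝ (S i))
    (htype : (∀ i, IsCompact (S i)) ∨ (∀ i, IsOpen (S i))) :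
    ∀ x ∈ visualHull (⋃ i, S i), x ∉ (⋃ i, S i) →
      ∃ v : V, ∀ j, ∃ t : ℝ, 0 < t ∧ x + t • v ∈ S j := by
  intro x hx hxS
  have hconv' : ∀ i, Convex ℝ {v : V | x + v ∈ S i} := by
    intro i v hv w hw a b ha hb hab
    have := hconv i hv hw ha hb hab
    have e : a • (x + v) + b • (x + w) = x + (a • v + b • w) := by
      rw [smul_add, smul_add]
      have : a • x + b • x = x := by rw [← add_smul, hab, one_smul]
      calc a • x + a • v + (b • x + b • w) = (a • x + b • x) + (a • v + b • w) := by abel
        _ = x + (a • v + b • w) := by rw [this]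
    rwa [e] at this
  have h0 : ∀ i, (0 : V) ∉ {v : V | x + v ∈ S i} := by
    intro i hi
    apply hxS
    refine mem_iUnion.mpr ⟨i, ?_⟩
    have h1 : x + (0 : V) ∈ S i := hi
    rwa [add_zero] at h1
  have hcov : ∀ v : V, v ≠ 0 → ∃ j, ∃ t : ℝ, t • v ∈ {v : V | x + v ∈ S j} := by
    intro v hv
    obtain ⟨t, ht⟩ := hx v hv
    obtain ⟨j, hj⟩ := mem_iUnion.mp ht
    exact ⟨j, t, hj⟩
  rcases htype with hc | ho
  · refine common_ray_compact m V hV (fun i => {v : V | x + v ∈ S i}) (fun i => ?_) hconv' h0 hcov
    have : {v : V | x + v ∈ S i} = (Homeomorph.addLeft x) ⁻¹' S i := rfl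
    change IsCompact {v : V | x + v ∈ S i}
    rw [this]
    exact (Homeomorph.addLeft x).isCompact_preimage.mpr (hc i)
  · refine common_ray_open m V hV (fun i => {v : V | x + v ∈ S i}) (fun i => ?_) hconv' h0 hcov
    exact (ho i).preimage (by fun_prop : Continuous fun v : V => x + v)

/-- The visual hull of the union of `n ≥ 1` strictly separated non-empty convex sets in
`n`-dimensional Euclidean space that are all compact, or all open, has exactly `n` connected
components. -/
theorem result (n : ℕ) (hn : 1 ≤ n) (S : Fin n → Set (EuclideanSpace ℝ (Fin n)))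
    (hconv : ∀ i, Convex ℝ (S i)) (hne : ∀ i, (S i).Nonempty) (hsep : StrictlySeparated S)
    (htype : (∀ i, IsCompact (S i)) ∨ (∀ i, IsOpen (S i))) :
    numComponents (visualHull (⋃ i, S i)) = n := by
  obtain ⟨m, rfl⟩ : ∃ m, n = m + 1 := ⟨n - 1, by omega⟩
  choose f c _ h1 h2 using hsep
  let g : Fin (m + 1) → Fin (m + 1) → EuclideanSpace ℝ (Fin (m + 1)) →L[ℝ] ℝ := fun i j =>
    if h : i < j then f i j h.ne else if h' : j < i then - f j i h'.ne else 0
  let d : Fin (m + 1) → Fin (m + 1) → ℝ := fun i j =>
    if h : i < j then c i j h.ne else if h' : j < i then - c j i h'.ne else 0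
  refine main (by omega) S hconv hne g d ?_ ?_ (ray_exists (by simp) S hconv htype)
  · intro i j hij
    rcases lt_or_gt_of_ne hij with h | h
    · have h' : ¬ j < i := not_lt.mpr h.le
      simp only [g, d, h, h', dite_true, dite_false]
      exact ⟨trivial, trivial⟩
    · have h' : ¬ i < j := not_lt.mpr h.le
      simp only [g, d, h, h', dite_true, dite_false, neg_neg]
      exact ⟨trivial, trivial⟩
  · intro i j hij x hx
    rcases lt_or_gt_of_ne hij with h | h
    · simp only [g, d, h, dite_true]
      exact h1 i j h.ne x hx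
    · have h' : ¬ i < j := not_lt.mpr h.le
      simp only [g, d, h, h', dite_true, dite_false]
      have := h2 j i h.ne x hx
      change - f j i _ x < _
      linarith

end Pool.Agent.Results.MP_1d6f1e_gt.SameType
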